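import Pool.Agent.L0h42.CL.Stm

/-! # All the conflicts -/

set_option autoImplicit false
set_option maxHeartbeats 4000000

namespace Pool.Agent.L0h96.CL
open Finset
open Pool.Agent.L0h42.TB Pool.Agent.L0h42.CL

lemma mo_le {k : ℕ} (x : (Fin k → ℕ) × (Fin k → ℕ)) : mo x ≤ (∏ l, x.1 l) * ∏ l, x.2 l := by
  unfold mo
  rw [← prod_mul_distrib]
  apply prod_le_prod'
  intro l _
  exact Nat.div_le_self _ _

open Classical in
theorem t_CFA (hCF : S_CF) : S_CFA := by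
  intro k A B hk a0 b0 ha0 h hinj
  set M : ℕ := ∑ l, (2 * a0 * ((h l : ℤ) + 1)).toNat with hM
  set U : ℕ := A + 2 * B + 3 * k + 1 with hU
  refine ⟨U, fun E => ⟨⌈Real.exp (36 * k ^ 2 + 2 + M)⌉₊, ?_⟩⟩
  intro N hN z R X T1 T2 hz1 hz2 hR1 hR80 hXN hT hRT Λ hΛ hΛ0
  have hNe : Real.exp (36 * k ^ 2 + 2 + M) ≤ N := (Nat.le_ceil _).trans (by exact_mod_cast hN)
  have hN0 : (0 : ℝ) < N := (Real.exp_pos _).trans_le hNe
  set L : ℝ := Real.log N with hL
  have hLb : 36 * (k : ℝ) ^ 2 + 2 + M ≤ L := by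
    rw [hL, Real.le_log_iff_exp_le hN0]
    exact hNe
  have hM0 : (0 : ℝ) ≤ M := Nat.cast_nonneg M
  have hk2 : (0 : ℝ) ≤ 36 * (k : ℝ) ^ 2 := by positivity
  have hL1 : 1 ≤ L := by linarith
  have hL0 : 0 < L := by linarith
  have hLU : L ≤ L ^ U := le_self_pow₀ hL1 (by omega)
  have hz : 1 ≤ z := by
    have : (1 : ℝ) ≤ z := hL1.trans (hLU.trans hz1)
    exact_mod_cast this
  have hz0 : (0 : ℝ) < z := by exact_mod_cast hz
  -- the logarithm of `R`
  have hR0 : (0 : ℝ) < R := by exact_mod_cast hR1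
  have hlogR0 : 0 ≤ Real.log R := Real.log_natCast_nonneg R
  have hlogR : 1 + Real.log R ≤ L := by
    have h1 : Real.log ((R : ℝ) ^ 80) ≤ Real.log N :=
      Real.log_le_log (by positivity) (by exact_mod_cast hR80)
    rw [Real.log_pow] at h1
    push_cast at h1
    linarith
  -- the conflicts
  have hconf : ∑ x ∈ CFS k z R, (1 : ℝ) / (mo x : ℝ) ≤ 9 * k ^ 2 / L ^ U * L ^ (3 * k) := by
    have s2 := conf_sum (κ := Fin k) z R hz hR1
    rw [Fintype.card_fin] at s2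
    have e : ∑ x ∈ CFS k z R, (1 : ℝ) / (mo x : ℝ) =
        ∑ x ∈ (PD (Fin k) z R ×ˢ PD (Fin k) z R).filter (fun x => Conf x), (1 : ℝ) / (∏ l, lc x l : ℕ) := rfl
    rw [e]
    refine s2.trans ?_
    have hT : ((1 + Real.log R) ^ 3) ^ k ≤ L ^ (3 * k) := by
      rw [pow_mul]
      exact pow_le_pow_left₀ (by positivity) (pow_le_pow_left₀ (by positivity) hlogR 3) _
    have q1 : (9 : ℝ) / z ≤ 9 / L ^ U := div_le_div_of_nonneg_left (by norm_num) (by positivity) hz1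
    calc (k : ℝ) ^ 2 * (9 / z) * ((1 + Real.log R) ^ 3) ^ k ≤ (k : ℝ) ^ 2 * (9 / L ^ U) * L ^ (3 * k) := by
          apply mul_le_mul _ hT (by positivity) (by positivity)
          exact mul_le_mul_of_nonneg_left q1 (by positivity)
      _ = 9 * k ^ 2 / L ^ U * L ^ (3 * k) := by ring
  have hsum0 : 0 ≤ ∑ x ∈ CFS k z R, (1 : ℝ) / (mo x : ℝ) := sum_nonneg fun _ _ => by positivity
  have hΛΛ : ∀ x ∈ CFS k z R, |Λ x.1 * Λ x.2| ≤ L ^ B * L ^ B := by
    intro x hx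
    have h1 := mem_product.1 (mem_filter.1 hx).1
    rw [abs_mul]
    exact mul_le_mul (hΛ _ h1.1) (hΛ _ h1.2) (abs_nonneg _) (by positivity)
  have hfin : L ^ B * L ^ B * (9 * k ^ 2 / L ^ U * L ^ (3 * k)) ≤ 9 * k ^ 2 / L * (1 / L ^ A) := by
    apply le_of_eq
    have e3 : L ^ U = L ^ A * (L ^ B * L ^ B) * L ^ (3 * k) * L := by rw [hU]; ring
    rw [e3]
    field_simp
  have hTT : (0 : ℝ) ≤ (T2 : ℝ) - T1 := by
    have : (T1 : ℝ) ≤ T2 := by exact_mod_cast hT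
    linarith
  constructor
  · have hzM : ∀ l, 2 * a0 * ((h l : ℤ) + 1) ≤ (z : ℤ) := by
      intro l
      have h1 : (M : ℝ) ≤ z := by linarith
      have h2 : M ≤ z := by exact_mod_cast h1
      have h3 : (2 * a0 * ((h l : ℤ) + 1)).toNat ≤ M :=
        single_le_sum (f := fun l => (2 * a0 * ((h l : ℤ) + 1)).toNat) (fun _ _ => Nat.zero_le _) (mem_univ l)
      have h4 := Int.self_le_toNat (2 * a0 * ((h l : ℤ) + 1))
      have h5 : ((2 * a0 * ((h l : ℤ) + 1)).toNat : ℤ) ≤ z := by exact_mod_cast h3.trans h2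
      exact h4.trans h5
    have hterm : ∀ x ∈ CFS k z R, |Λ x.1 * Λ x.2| *
        ∑ a ∈ Icc 1 X, (((Ioc T1 T2).filter (fun t : ℕ => Hit (cq a0 b0 h t) (lc x) a)).card : ℝ) ≤
        L ^ B * L ^ B * (4 * N * ((T2 : ℝ) - T1)) * ((1 : ℝ) / (mo x : ℝ)) := by
      intro x hx
      have hx' := (mem_filter.1 hx).1
      by_cases h0 : Λ x.1 * Λ x.2 = 0
      · rw [h0, abs_zero, zero_mul]
        positivity
      · have h1 : Λ x.1 ≠ 0 := fun h => h0 (by rw [h, zero_mul])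
        have h2 : Λ x.2 ≠ 0 := fun h => h0 (by rw [h, mul_zero])
        have h3 : mo x ≤ R * R := (mo_le x).trans (Nat.mul_le_mul (hΛ0 _ h1) (hΛ0 _ h2))
        have h4 : R * R ≤ R ^ 16 := by
          rw [← pow_two]
          exact Nat.pow_le_pow_right hR1 (by norm_num)
        have h5 : R * R ≤ R ^ 80 := by
          rw [← pow_two]
          exact Nat.pow_le_pow_right hR1 (by norm_num)
        have h6 := hCF k a0 b0 h z R X T1 T2 N ha0 hinj hzM hXN hT x hx' (h3.trans (h4.trans hRT))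
          (h3.trans (h5.trans hR80))
        calc _ ≤ L ^ B * L ^ B * (4 * N * ((T2 : ℝ) - T1) / mo x) := by
              apply mul_le_mul (hΛΛ x hx) _ (sum_nonneg fun _ _ => Nat.cast_nonneg _) (by positivity)
              exact h6
          _ = _ := by ring
    refine (sum_le_sum hterm).trans ?_
    rw [← mul_sum]
    calc L ^ B * L ^ B * (4 * N * ((T2 : ℝ) - T1)) * ∑ x ∈ CFS k z R, (1 : ℝ) / (mo x : ℝ) ≤
          L ^ B * L ^ B * (4 * N * ((T2 : ℝ) - T1)) * (9 * k ^ 2 / L ^ U * L ^ (3 * k)) :=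
          mul_le_mul_of_nonneg_left hconf (by positivity)
      _ = (4 * N * ((T2 : ℝ) - T1)) * (L ^ B * L ^ B * (9 * k ^ 2 / L ^ U * L ^ (3 * k))) := by ring
      _ ≤ (4 * N * ((T2 : ℝ) - T1)) * (9 * k ^ 2 / L * (1 / L ^ A)) :=
          mul_le_mul_of_nonneg_left hfin (by positivity)
      _ = (36 * k ^ 2 / L) * (N * ((T2 : ℝ) - T1) / L ^ A) := by ring
      _ ≤ 1 * (N * ((T2 : ℝ) - T1) / L ^ A) := by
          apply mul_le_mul_of_nonneg_right _ (by positivity)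
          rw [div_le_one hL0]
          linarith
      _ = _ := one_mul _
  · calc ∑ x ∈ CFS k z R, |Λ x.1 * Λ x.2| * (1 / (mo x : ℝ)) ≤
          ∑ x ∈ CFS k z R, L ^ B * L ^ B * (1 / (mo x : ℝ)) :=
          sum_le_sum fun x hx => mul_le_mul_of_nonneg_right (hΛΛ x hx) (by positivity)
      _ = L ^ B * L ^ B * ∑ x ∈ CFS k z R, 1 / (mo x : ℝ) := by rw [← mul_sum]
      _ ≤ L ^ B * L ^ B * (9 * k ^ 2 / L ^ U * L ^ (3 * k)) :=
          mul_le_mul_of_nonneg_left hconf (by positivity)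
      _ ≤ 9 * k ^ 2 / L * (1 / L ^ A) := hfin
      _ ≤ 1 * (1 / L ^ A) := by
          apply mul_le_mul_of_nonneg_right _ (by positivity)
          rw [div_le_one hL0]
          nlinarith
      _ = _ := one_mul _

end Pool.Agent.L0h96.CL
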